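import Pool.Agent.H1.ME.SMain

set_option autoImplicit false

/-!
# Generators of the algebra of invariant differential operators on the Minkowski-Euclid space

The definitions (`Pool/Agent/H1/ME/SDefs.lean`) are those of the problem.
-/

namespace Pool.Agent.Results.MP_028459_al.Generators

open MEu

/-- For all `n`, `m`: an operator `D` is a linear differential operator on `P_{n,m}` that commutes
with all the maps `(Y, V) ↦ (A Y ᵗA, (V + b) ᵗA)` if and only if it is in the unital `ℂ`-algebra
generated by the operators `D_j = Tr((2 Y ∂/∂Y)^j)`, `1 ≤ j ≤ n`, and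
`Ω^{(k)}_{pq} = {∂/∂V (2 Y ∂/∂Y)^k Y ᵗ(∂/∂V)}_{pq}`, `0 ≤ k ≤ n - 1`, `p ≤ q`. -/
theorem result (n m : ℕ) (D : Op n m) : IsDiffOp D ∧ IsInv D ↔ InAlg (gens n m) D :=
  MEu.main n m D

end Pool.Agent.Results.MP_028459_al.Generators
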